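import Mathlib
import Pool.Agent.P.MP_a5fed0_gt.Metric

namespace Pool.Agent.Results.MP_a5fed0_gt.OrthogonalFlat

open Set Filter Topology
open scoped ContDiff
open Pool.Agent.P.MP_a5fed0_gt

/-- There is a smooth metric `E du^2 + G dv^2` on the open unit disc which is flat (Gaussian
curvature zero) and complete (for the induced length distance); it is isometric to the
Euclidean plane `ℂ` through a smooth bijection `Φ`. -/
theorem result : ∃ E G : ℝ × ℝ → ℝ, ContDiffOn ℝ ∞ E disc ∧ ContDiffOn ℝ ∞ G disc ∧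
    (∀ z ∈ disc, 0 < E z ∧ 0 < G z) ∧ (∀ z ∈ disc, gaussCurv E G z = 0) ∧
    (∀ x : ℕ → ℝ × ℝ, (∀ n, x n ∈ disc) →
      (∀ ε > 0, ∃ N, ∀ m ≥ N, ∀ n ≥ N, lengthDist E G (x m) (x n) < ε) →
      ∃ P ∈ disc, Tendsto (fun n => lengthDist E G (x n) P) atTop (𝓝 0)) ∧
    ∃ Φ : ℝ × ℝ → ℂ, ContDiffOn ℝ ∞ Φ disc ∧ BijOn Φ disc univ ∧
      (∀ z ∈ disc, ∀ a b : ℝ, ‖fderiv ℝ Φ z (a, b)‖ ^ 2 = E z * a ^ 2 + G z * b ^ 2) ∧
      ∀ P ∈ disc, ∀ Q ∈ disc, lengthDist E G P Q = dist (Φ P) (Φ Q) :=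
  main

end Pool.Agent.Results.MP_a5fed0_gt.OrthogonalFlat
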